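import Pool.Agent.T9h45.HY.Box2
import Pool.Agent.Results.MP_b8729f_co.LogarithmicError

/-!
# The Havet-Yu conjecture for Cartesian products with a bipartite graph

Let `G` be an arbitrary graph, `H` a bipartite graph with at least one edge and `p ≥ 1`. Then the
Cartesian product `G □ H` has a `(p,1)`-total labelling of span `Δ + 2 p - 1`, `Δ = Δ(G) + Δ(H)` its
maximum degree, if `χ(G) ≤ Δ(H) + p`, and it has even a circular `(p,1)`-total labelling with
`Δ + 2 p` labels if `χ(G) ≤ Δ(H)`, or `Δ(H) ≥ 64 p + 66 + 524 log (Δ(G) + 1)`, or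
`Δ(H) ≥ 3 + 8 Δ(G)^(2/3) (log Δ(G))^(1/3)`. The same holds for graphs which are fibred over `G` with
bipartite fibres (for instance graph bundles over `G`).

Proof. All copies of `G` over the vertices of `H` get the same edge labels, and the vertices over a
vertex `y` of `G` get one of two labels `a(y)`, `b(y)`, according to the side in the bipartite graph
`H`. In the first case these are labels at the lower end, `a` a proper colouring of `G` and `b = σ a`
for a permutation `σ` without fixed points which moves the labels only a little, and the edges of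
`G` get labels at the upper end (Vizing). In the last cases `b = a + 1` and the labels `a` and of the
edges of `G` form a circular `(p+1,1)`-total labelling of `G` with `Δ + 2 p` labels. In all cases there
are at least `Δ(G) + Δ(H)` labels at distance at least `p` from both of `a(y)` and `b(y)`, and so
there remain `Δ(H)` labels for a proper edge colouring (König) of the copy of `H` over `y`.
-/

set_option autoImplicit false

namespace Pool.Agent.Results.MP_b8729f_co.CartesianProducts

open Pool.Agent.T9h45.HY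

/-- `TotalLabeling G p l`: the graph `G` has a `(p,1)`-total labeling of span `l`, that is, labels
`0, …, l` for the vertices (`fV`) and the edges (`fE`) such that adjacent vertices get different
labels, edges sharing an endpoint get different labels, and the labels of a vertex and of an
incident edge differ by at least `p`. -/
def TotalLabeling {V : Type} (G : SimpleGraph V) (p l : ℕ) : Prop :=
  ∃ (fV : V → ℕ) (fE : Sym2 V → ℕ),
    (∀ v, fV v ≤ l) ∧ (∀ e ∈ G.edgeSet, fE e ≤ l) ∧
    (∀ u v, G.Adj u v → fV u ≠ fV v) ∧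
    (∀ u v w, G.Adj u v → G.Adj u w → v ≠ w → fE s(u, v) ≠ fE s(u, w)) ∧
    (∀ u v, G.Adj u v → (p : ℤ) ≤ |(fV u : ℤ) - (fE s(u, v) : ℤ)|)

/-- `CircularLabeling G p N`: a circular `(p,1)`-total labeling of `G` with the `N` labels
`0, …, N - 1` placed around a circle: as above, but the distance of the labels of a vertex and of
an incident edge, measured around the circle, is at least `p`
(so `p ≤ |fV u - fE uv| ≤ N - p`). -/
def CircularLabeling {V : Type} (G : SimpleGraph V) (p N : ℕ) : Prop :=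
  ∃ (fV : V → ℕ) (fE : Sym2 V → ℕ),
    (∀ v, fV v < N) ∧ (∀ e ∈ G.edgeSet, fE e < N) ∧
    (∀ u v, G.Adj u v → fV u ≠ fV v) ∧
    (∀ u v w, G.Adj u v → G.Adj u w → v ≠ w → fE s(u, v) ≠ fE s(u, w)) ∧
    (∀ u v, G.Adj u v → (p : ℤ) ≤ |(fV u : ℤ) - (fE s(u, v) : ℤ)| ∧
      |(fV u : ℤ) - (fE s(u, v) : ℤ)| ≤ (N : ℤ) - p)

/-- `FibredGraph G Q t s d`: the vertices of the graph `G` are projected to the vertices of the
graph `Q` by `t` and distributed to two sides by `s`. Two adjacent vertices of `G` of the same side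
lie over adjacent vertices of `Q`, and a vertex has at most one neighbour of its own side over every
vertex of `Q`; two adjacent vertices of `G` of different sides lie over the same vertex of `Q`, and
a vertex has at most `d` neighbours of the other side. -/
def FibredGraph {V Y : Type} (G : SimpleGraph V) (Q : SimpleGraph Y) (t : V → Y) (s : V → Bool)
    (d : ℕ) : Prop :=
  (∀ u v, G.Adj u v → s u = s v → Q.Adj (t u) (t v)) ∧
  (∀ u v w, G.Adj u v → G.Adj u w → s u = s v → s u = s w → t v = t w → v = w) ∧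
  (∀ u v, G.Adj u v → s u ≠ s v → t u = t v) ∧
  (∀ u, {v | G.Adj u v ∧ s u ≠ s v}.ncard ≤ d)

theorem circ_lin {V : Type} {G : SimpleGraph V} {p N : ℕ} (h : CircularLabeling G p N) :
    TotalLabeling G p (N - 1) := by
  obtain ⟨fV, fE, h1, h2, h3, h4, h5⟩ := h
  exact ⟨fV, fE, fun v => Nat.le_sub_one_of_lt (h1 v), fun e he => Nat.le_sub_one_of_lt (h2 e he),
    h3, h4, fun u v huv => (h5 u v huv).1⟩

theorem nbr {Y : Type} [Fintype Y] (Q : SimpleGraph Y) [DecidableRel Q.Adj] (y : Y) :
    (Q.neighborSet y).ncard ≤ Q.maxDegree := by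
  classical
  refine le_trans (le_of_eq ?_) (Q.degree_le_maxDegree y)
  rw [← SimpleGraph.card_neighborFinset_eq_degree, ← Set.ncard_coe_finset,
    SimpleGraph.coe_neighborFinset]

/-- Vizing's theorem -/
theorem vizing {Y : Type} [Fintype Y] (Q : SimpleGraph Y) [DecidableRel Q.Adj] (D : ℕ)
    (hD : Q.maxDegree ≤ D) :
    ∃ c : Y → Y → ℕ, (∀ u v, c u v = c v u) ∧ (∀ u v, Q.Adj u v → c u v < D + 1) ∧
      (∀ u v w, Q.Adj u v → Q.Adj u w → v ≠ w → c u v ≠ c u w) := by
  classical
  obtain ⟨c, h1, h2, h3⟩ := Pool.Agent.H238R2.HY.vizing Q D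
    (fun v => (Q.degree_le_maxDegree v).trans hD)
  exact ⟨c, h1, fun u v h => Nat.lt_succ_of_le (h2 u v h), h3⟩

/-- the fibred case -/
theorem fibred_main {V Y : Type} [Fintype V] [Fintype Y] (G : SimpleGraph V) (Q : SimpleGraph Y)
    [DecidableRel Q.Adj] (t : V → Y) (s : V → Bool) (d p : ℕ) (hp : 1 ≤ p) (hd : 1 ≤ d)
    (hf : FibredGraph G Q t s d) :
    (Q.Colorable (d + p) → TotalLabeling G p (Q.maxDegree + d + 2 * p - 1)) ∧
    (Q.lineGraph.Colorable Q.maxDegree → Q.Colorable (d + p + 1) →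
      TotalLabeling G p (Q.maxDegree + d + 2 * p - 1)) ∧
    (Q.Colorable (d + d % 2) → CircularLabeling G p (Q.maxDegree + d + 2 * p)) ∧
    (Q.lineGraph.Colorable Q.maxDegree → Q.Colorable (d + 2 - d % 2) →
      CircularLabeling G p (Q.maxDegree + d + 2 * p)) ∧
    (64 * p + 66 + 524 * Real.log (Q.maxDegree + 1) ≤ d →
      CircularLabeling G p (Q.maxDegree + d + 2 * p)) ∧
    (3 + 8 * ((Q.maxDegree : ℝ) ^ (2 / 3 : ℝ) * Real.log Q.maxDegree ^ (1 / 3 : ℝ)) ≤ d →
      CircularLabeling G p (Q.maxDegree + d + 2 * p)) := by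
  classical
  have hf' : Fibred G Q t s d := ⟨hf.1, hf.2.1, hf.2.2.1, hf.2.2.2⟩
  obtain ⟨c, c1, c2, c3⟩ := vizing Q Q.maxDegree le_rfl
  have hlin : ∀ {M : ℕ}, (∃ (fV : V → ℕ) (fE : Sym2 V → ℕ),
      (∀ v, fV v < M) ∧ (∀ e ∈ G.edgeSet, fE e < M) ∧
      (∀ u v, G.Adj u v → fV u ≠ fV v) ∧
      (∀ u v w, G.Adj u v → G.Adj u w → v ≠ w → fE s(u, v) ≠ fE s(u, w)) ∧
      (∀ u v, G.Adj u v → (p : ℤ) ≤ |(fV u : ℤ) - (fE s(u, v) : ℤ)|)) →
      TotalLabeling G p (M - 1) := by
    rintro M ⟨fV, fE, h1, h2, h3, h4, h5⟩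
    exact ⟨fV, fE, fun v => Nat.le_sub_one_of_lt (h1 v),
      fun e he => Nat.le_sub_one_of_lt (h2 e he), h3, h4, h5⟩
  refine ⟨fun h => ?_, fun h h' => ?_, fun h => ?_, fun h h' => ?_, fun h => ?_, fun h => ?_⟩
  · exact hlin (fib_lin G Q t s Q.maxDegree d p (Q.maxDegree + 1) (d + p) hp hf' (nbr Q) c c1 c2 c3
      h (by omega) (by omega) (by omega))
  · obtain ⟨e, e1, e2, e3⟩ := edge_fun Q _ h
    exact hlin (fib_lin G Q t s Q.maxDegree d p Q.maxDegree (d + p + 1) hp hf' (nbr Q) e e1 e2 e3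
      h' (by omega) (by omega) (by omega))
  · refine fib_circ G Q t s Q.maxDegree d p (Q.maxDegree + 1) ((d + 1) / 2) hp hf' (nbr Q) c c1 c2
      c3 ?_ (by omega)
    have e : 2 * ((d + 1) / 2) = d + d % 2 := by omega
    rw [e]
    exact h
  · obtain ⟨e, e1, e2, e3⟩ := edge_fun Q _ h
    refine fib_circ G Q t s Q.maxDegree d p Q.maxDegree ((d + 2) / 2) hp hf' (nbr Q) e e1 e2
      e3 ?_ (by omega)
    have e : 2 * ((d + 2) / 2) = d + 2 - d % 2 := by omega
    rw [e]
    exact h'
  · obtain ⟨N, hN, hlab⟩ :=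
      Pool.Agent.Results.MP_b8729f_co.LogarithmicError.circ_main Q (p + 1) (by omega)
    refine fib_base G Q t s Q.maxDegree d p N hp hf' (nbr Q) ?_ hlab
    push_cast at hN
    have : (N : ℝ) ≤ ((Q.maxDegree + d + 2 * p : ℕ) : ℝ) := by
      push_cast
      linarith
    exact_mod_cast this
  · obtain ⟨N, hN, hlab⟩ := Pool.Agent.H238R2.HY.main Q (p + 1) (by omega)
    refine fib_base G Q t s Q.maxDegree d p N hp hf' (nbr Q) ?_ hlab
    unfold Pool.Agent.H238R2.HY.err at hN
    push_cast at hN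
    have : (N : ℝ) ≤ ((Q.maxDegree + d + 2 * p : ℕ) : ℝ) := by
      push_cast
      linarith
    exact_mod_cast this

theorem maxDegree_box {V W : Type} [Fintype V] [Fintype W] [Nonempty V] [Nonempty W]
    (G : SimpleGraph V) (H : SimpleGraph W) [DecidableRel G.Adj] [DecidableRel H.Adj]
    [DecidableRel (G □ H).Adj] : (G □ H).maxDegree = G.maxDegree + H.maxDegree := by
  classical
  apply le_antisymm
  · refine (G □ H).maxDegree_le_of_forall_degree_le _ fun x => ?_
    rw [SimpleGraph.degree_boxProd]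
    exact Nat.add_le_add (G.degree_le_maxDegree _) (H.degree_le_maxDegree _)
  · obtain ⟨a, ha⟩ := G.exists_maximal_degree_vertex
    obtain ⟨b, hb⟩ := H.exists_maximal_degree_vertex
    have h1 := (G □ H).degree_le_maxDegree (a, b)
    rw [SimpleGraph.degree_boxProd] at h1
    rw [ha, hb]
    exact h1

theorem box_fibred {V W : Type} [Fintype V] [Fintype W] (G : SimpleGraph V) (H : SimpleGraph W)
    [DecidableRel H.Adj] (C : H.Coloring (Fin 2)) :
    FibredGraph (G □ H) G (fun x => x.1) (fun x => decide (C x.2 = 0)) H.maxDegree := by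
  classical
  have hC : ∀ a b : Fin 2, decide (a = 0) = decide (b = 0) → a = b := by decide
  have hside : ∀ u v : V × W, (G □ H).Adj u v → decide (C u.2 = 0) = decide (C v.2 = 0) →
      G.Adj u.1 v.1 ∧ u.2 = v.2 := by
    intro u v h hs
    rw [SimpleGraph.boxProd_adj] at h
    rcases h with h | h
    · exact h
    · exact absurd (hC _ _ hs) (C.valid h.1)
  have hside' : ∀ u v : V × W, (G □ H).Adj u v → decide (C u.2 = 0) ≠ decide (C v.2 = 0) →
      H.Adj u.2 v.2 ∧ u.1 = v.1 := by
    intro u v h hs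
    rw [SimpleGraph.boxProd_adj] at h
    rcases h with h | h
    · exact absurd (by rw [h.2]) hs
    · exact h
  refine ⟨fun u v h hs => (hside u v h hs).1, ?_, fun u v h hs => (hside' u v h hs).2, ?_⟩
  · intro u v w hv hw h3 h4 h5
    exact Prod.ext h5 ((hside u v hv h3).2.symm.trans (hside u w hw h4).2)
  · intro u
    refine le_trans ?_ (nbr H u.2)
    have hinj : Set.InjOn (fun v : V × W => v.2)
        {v | (G □ H).Adj u v ∧ decide (C u.2 = 0) ≠ decide (C v.2 = 0)} := by
      intro v hv w hw h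
      exact Prod.ext ((hside' u v hv.1 hv.2).2.symm.trans (hside' u w hw.1 hw.2).2) h
    rw [← hinj.ncard_image]
    refine Set.ncard_le_ncard ?_ (Set.toFinite _)
    rintro _ ⟨v, hv, rfl⟩
    exact (hside' u v hv.1 hv.2).1

theorem empty_lab {V : Type} [IsEmpty V] (G : SimpleGraph V) (p N : ℕ) :
    CircularLabeling G p N := by
  refine ⟨fun _ => 0, fun _ => 0, fun v => isEmptyElim v, ?_, fun u => isEmptyElim u,
    fun u => isEmptyElim u, fun u => isEmptyElim u⟩
  intro e _
  induction e using Sym2.ind with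
  | _ u v => exact isEmptyElim u

/-- **The Havet-Yu conjecture for Cartesian products with a bipartite graph.**

(1) Let `G` be a graph, `H` a bipartite graph with at least one edge, `p ≥ 1` and
`Δ = Δ(G □ H)`.
(a) If `χ(G) ≤ Δ(H) + p` (or `χ(G) ≤ Δ(H) + p + 1` and the edges of `G` can be coloured with `Δ(G)`
colours), then the Cartesian product `G □ H` has a `(p,1)`-total labelling of span `Δ + 2 p - 1`.
(b) If `χ(G) ≤ Δ(H)` or (`χ(G) = Δ(H) + 1` and `Δ(H)` is odd), then `G □ H` has a circular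
`(p,1)`-total labelling with `Δ + 2 p` labels, and so a `(p,1)`-total labelling of span
`Δ + 2 p - 1`; the same if the edges of `G` can be coloured with `Δ(G)` colours and
`χ(G) ≤ Δ(H) + 1` or (`χ(G) = Δ(H) + 2` and `Δ(H)` is even).
(c) The same if `Δ(H) ≥ 64 p + 66 + 524 log (Δ(G) + 1)`.
(d) The same if `Δ(H) ≥ 3 + 8 Δ(G)^(2/3) (log Δ(G))^(1/3)`.

(2) The same for every graph `G` that is fibred over a graph `Q` with bipartite fibres, with `Q` in
the place of `G`, `d ≥ 1` in the place of `Δ(H)` and `Δ(Q) + d` in the place of `Δ`. -/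
theorem result :
    (∀ (V W : Type) [Fintype V] [Fintype W] (G : SimpleGraph V) (H : SimpleGraph W)
      [DecidableRel G.Adj] [DecidableRel H.Adj] [DecidableRel (G □ H).Adj] (p : ℕ),
      1 ≤ p → H.Colorable 2 → 1 ≤ H.maxDegree →
      (G.Colorable (H.maxDegree + p) ∨
        (G.lineGraph.Colorable G.maxDegree ∧ G.Colorable (H.maxDegree + p + 1)) →
        TotalLabeling (G □ H) p ((G □ H).maxDegree + 2 * p - 1)) ∧
      (G.Colorable (H.maxDegree + H.maxDegree % 2) ∨
        (G.lineGraph.Colorable G.maxDegree ∧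
          G.Colorable (H.maxDegree + 2 - H.maxDegree % 2)) ∨
        64 * p + 66 + 524 * Real.log (G.maxDegree + 1) ≤ H.maxDegree ∨
        3 + 8 * ((G.maxDegree : ℝ) ^ (2 / 3 : ℝ) * Real.log G.maxDegree ^ (1 / 3 : ℝ)) ≤
          H.maxDegree →
        CircularLabeling (G □ H) p ((G □ H).maxDegree + 2 * p) ∧
          TotalLabeling (G □ H) p ((G □ H).maxDegree + 2 * p - 1))) ∧
    (∀ (V Y : Type) [Fintype V] [Fintype Y] (G : SimpleGraph V) (Q : SimpleGraph Y)
      [DecidableRel Q.Adj] (t : V → Y) (s : V → Bool) (d p : ℕ),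
      1 ≤ p → 1 ≤ d → FibredGraph G Q t s d →
      (Q.Colorable (d + p) ∨
        (Q.lineGraph.Colorable Q.maxDegree ∧ Q.Colorable (d + p + 1)) →
        TotalLabeling G p (Q.maxDegree + d + 2 * p - 1)) ∧
      (Q.Colorable (d + d % 2) ∨
        (Q.lineGraph.Colorable Q.maxDegree ∧ Q.Colorable (d + 2 - d % 2)) ∨
        64 * p + 66 + 524 * Real.log (Q.maxDegree + 1) ≤ d ∨
        3 + 8 * ((Q.maxDegree : ℝ) ^ (2 / 3 : ℝ) * Real.log Q.maxDegree ^ (1 / 3 : ℝ)) ≤ d →
        CircularLabeling G p (Q.maxDegree + d + 2 * p) ∧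
          TotalLabeling G p (Q.maxDegree + d + 2 * p - 1))) := by
  have hpart2 : ∀ (V Y : Type) [Fintype V] [Fintype Y] (G : SimpleGraph V) (Q : SimpleGraph Y)
      [DecidableRel Q.Adj] (t : V → Y) (s : V → Bool) (d p : ℕ),
      1 ≤ p → 1 ≤ d → FibredGraph G Q t s d →
      (Q.Colorable (d + p) ∨
        (Q.lineGraph.Colorable Q.maxDegree ∧ Q.Colorable (d + p + 1)) →
        TotalLabeling G p (Q.maxDegree + d + 2 * p - 1)) ∧
      (Q.Colorable (d + d % 2) ∨
        (Q.lineGraph.Colorable Q.maxDegree ∧ Q.Colorable (d + 2 - d % 2)) ∨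
        64 * p + 66 + 524 * Real.log (Q.maxDegree + 1) ≤ d ∨
        3 + 8 * ((Q.maxDegree : ℝ) ^ (2 / 3 : ℝ) * Real.log Q.maxDegree ^ (1 / 3 : ℝ)) ≤ d →
        CircularLabeling G p (Q.maxDegree + d + 2 * p) ∧
          TotalLabeling G p (Q.maxDegree + d + 2 * p - 1)) := by
    intro V Y _ _ G Q _ t s d p hp hd hf
    obtain ⟨h1, h2, h3, h4, h5, h6⟩ := fibred_main G Q t s d p hp hd hf
    refine ⟨fun h => ?_, fun h => ?_⟩
    · rcases h with h | ⟨h, h'⟩
      · exact h1 h
      · exact h2 h h'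
    · have hc : CircularLabeling G p (Q.maxDegree + d + 2 * p) := by
        rcases h with h | ⟨h, h'⟩ | h | h
        · exact h3 h
        · exact h4 h h'
        · exact h5 h
        · exact h6 h
      exact ⟨hc, circ_lin hc⟩
  refine ⟨?_, hpart2⟩
  intro V W _ _ G H _ _ _ p hp hH hd
  rcases isEmpty_or_nonempty V with hV | hV
  · exact ⟨fun _ => circ_lin (empty_lab (G □ H) p ((G □ H).maxDegree + 2 * p)),
      fun _ => ⟨empty_lab _ _ _, circ_lin (empty_lab (G □ H) p ((G □ H).maxDegree + 2 * p))⟩⟩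
  have hW : Nonempty W := by
    by_contra h
    rw [not_nonempty_iff] at h
    have : H.maxDegree = 0 := by
      have := H.maxDegree_le_of_forall_degree_le 0 (fun v => isEmptyElim v)
      omega
    omega
  obtain ⟨C⟩ := hH
  have h1 := hpart2 (V × W) V (G □ H) G (fun x => x.1) (fun x => decide (C x.2 = 0)) H.maxDegree p
    hp hd (box_fibred G H C)
  rw [maxDegree_box G H]
  exact h1

end Pool.Agent.Results.MP_b8729f_co.CartesianProducts
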