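import Pool.Agent.T9h45.HY.PLarge

/-!
# The Havet-Yu conjecture for `p ≥ Δ - 1`

Havet and Yu proved their conjecture for `p ≥ Δ` and for `Δ ≤ 3`, `p = 2`. Here it is proved for
`p ≥ Δ - 1`, `p ≥ 3`, that is, the new case is `Δ = p + 1 ≥ 4`.

Proof. Components `K_{Δ+1}` have a circular labelling, so by Brooks' theorem we may assume that `G`
is `(p+1)`-colourable. The vertices get the labels `0, …, p` such that the last class `I` is as small
as possible. The edges at `I` have to use the `Δ` labels `2p, …, 2p + Δ - 1`, and so we need a
matching `M₁` outside `I` (label `2p - 1`) and a matching `M₂` outside the last two classes (label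
`2p - 2`) such that `G - M₁ - M₂` has a proper edge colouring with `Δ` colours. By Fournier's theorem
it is enough that the vertices of degree `Δ` in `G - M₁ - M₂` induce a forest. By exchanging colours,
every component of the bipartite graph `B` of the edges between `I` and the rest has at most one
cycle, and every vertex outside `I` of such a cycle has at least `p - 1` neighbours outside `I`. By
Hall's theorem there are a vertex `u ∉ I` on every cycle and distinct neighbours `f(u) ∉ I` of these,
and all `u` can be covered by `M₁` and `M₂`, using edges `u f(u)` only. Finally `M₁` is enlarged to a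
maximal matching outside `I`, so that the uncovered vertices outside `I` are independent.
-/

set_option autoImplicit false

namespace Pool.Agent.Results.MP_b8729f_co.LargeP

/-- `TotalLabeling G p l`: the graph `G` has a `(p,1)`-total labeling of span `l`, that is, labels
`0, …, l` for the vertices (`fV`) and the edges (`fE`) such that adjacent vertices get different
labels, edges sharing an endpoint get different labels, and the labels of a vertex and of an
incident edge differ by at least `p`. -/
def TotalLabeling {V : Type} (G : SimpleGraph V) (p l : ℕ) : Prop :=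
  ∃ (fV : V → ℕ) (fE : Sym2 V → ℕ),
    (∀ v, fV v ≤ l) ∧ (∀ e ∈ G.edgeSet, fE e ≤ l) ∧
    (∀ u v, G.Adj u v → fV u ≠ fV v) ∧
    (∀ u v w, G.Adj u v → G.Adj u w → v ≠ w → fE s(u, v) ≠ fE s(u, w)) ∧
    (∀ u v, G.Adj u v → (p : ℤ) ≤ |(fV u : ℤ) - (fE s(u, v) : ℤ)|)

/-- **The Havet-Yu conjecture for `p ≥ max(3, Δ - 1)`**: for `p ≥ 3`, every finite simple graph with
maximum degree `Δ ≤ p + 1` has a `(p,1)`-total labeling of span `Δ + 2 p - 1`. -/
theorem result {V : Type} [Fintype V] (G : SimpleGraph V) [DecidableRel G.Adj] (p : ℕ)
    (hp : 3 ≤ p) (hG : G.maxDegree ≤ p + 1) : TotalLabeling G p (G.maxDegree + 2 * p - 1) := by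
  classical
  obtain ⟨fV, fE, h1, h2, h3⟩ := (Pool.T9h45.HY.lab_main G G.maxDegree p hp hG (fun v => by
    refine le_trans (le_of_eq ?_) (G.degree_le_maxDegree v)
    unfold Pool.Q6.CI.dg
    rw [← SimpleGraph.card_neighborFinset_eq_degree]
    congr 1
    ext w
    simp)).toSym2
  exact ⟨fV, fE, fun v => Nat.le_sub_one_of_lt (h1 v), fun e he => Nat.le_sub_one_of_lt (h2 e he),
    h3⟩

end Pool.Agent.Results.MP_b8729f_co.LargeP
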