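import Pool.Agent.T9h45.LD.Mixed
import Pool.Agent.T9h45.LD.Gen
import Pool.Agent.T9h45.CP.Edge
import Pool.Agent.T9h64.LD.E1
import Pool.Agent.T9h14.LD.E2
import Pool.Agent.T9h82.LD.E3
import Pool.Agent.T9h70.LD.T1
import Pool.Agent.T9h56.LD.T2
import Pool.Agent.T9h89.LD.T3
import Pool.Agent.T9h31.LD.T4a
import Pool.Agent.T9h43.LD.T4b
import Pool.Agent.T9h96.LD.B1
import Pool.Agent.T9h63.LD.B2
import Pool.Agent.T9h56.LD.St

/-!
# The Havet-Yu conjecture for `p` at least `(1/2 + ε) Δ` and graphs which are not of mixed local density

Call a vertex of a graph of maximum degree `Δ` locally dense if it lies in at least `(1 - δ) Δ² / 2`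
triangles (a vertex lies in at most `Δ (Δ - 1) / 2` triangles). For every `ε > 0` there is `δ₀ > 0` such
that for all `0 < δ ≤ δ₀` the inequality of Havet and Yu holds for all `p ≥ (1/2 + ε) Δ` and all graphs
of maximum degree `Δ ≥ D₀(ε, δ)` in which no locally dense vertex is adjacent to a vertex which is
not locally dense. The main part are the graphs in which all the vertices are locally dense. No
regularity and no symmetry is assumed, and the chromatic number can be larger than `p` (for graphs
of chromatic number at most `p` the inequality is known). The starting file `LocallySparse` treats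
graphs without locally dense vertices. So the inequality holds for all graphs in which all the
vertices lie in the same number of triangles, for example for all vertex-transitive graphs (Cayley
graphs), and we prove it also for all graphs in which all the edges lie in the same number of
triangles (edge-transitive, distance-regular, strongly regular graphs).

Proof. The vertices of a locally dense graph fall into classes, near-cliques: with `h` a small multiple
of `Δ`, every class has between `Δ - h` and `Δ + h` vertices, every vertex has at most `h` neighbours
outside its class and at most `h` nonneighbours in its class. We show: if a graph of maximum degree at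
most `D` has such a partition and `D ≥ 100 θ`, `θ = 8 h + 8`, `2 p ≥ D + 200 h + 200`, then it has a
labelling of span `D + 2 p - 1`. The vertices are divided into low ones `x` (label `f x`) and high ones
`y` (label `D + 2 p - 1 - f y`); edges between low vertices get labels `≥ D + p`, edges between high ones
labels `< p` (Vizing), and the other edges `x y` labels `p + c`, `f x ≤ c < D - f y`, by Galvin's method:
it is enough that every vertex has an order of preference of its edges such that for every edge `x y`
the numbers of the better edges at `x` and at `y` add up to less than `D - f x - f y`.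
(Big classes) If the complement of the class contains `2 θ` disjoint pairs, `θ` pairs are low and `θ`
pairs are high; the two vertices of a pair get the same label `< θ`. A vertex with label `< θ` prefers
edges to vertices with large labels, but those to vertices with labels `< θ` are sorted by parity, such
that of two vertices with labels `< θ` at least one prefers the other one; this leaves a slack of `θ`
for every edge.
(Small classes) A maximum matching of the complement has fewer than `2 θ` edges. Its vertices, and
the single vertices which are not adjacent to both vertices of some pair, are high and get labels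
`< 4 θ`. The remaining vertices form a clique, and each of them sees every pair. They are divided
such that a potential (the number of edges between low and high vertices of different classes, the
number of nonneighbours of the low vertices, and the squares of the differences of the sizes of the
parts, corrected by a multiple of the number of pairs) is minimal. The minimality is exactly what is
needed for the inequality at all the edges; the inner high vertices prefer the edges in the class, all
the other vertices the edges to other classes.
The labels inside the classes are permuted by Haxell's theorem on independent transversals (strong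
colouring) such that adjacent vertices of different classes on the same side get different labels.
-/

set_option autoImplicit false

namespace Pool.Agent.Results.MP_b8729f_co.LocallyDense

open Finset Pool.T9h45.HY Pool.T9h45.CP Pool.T9h45.LD

/-- `TotalLabeling G p l`: the graph `G` has a `(p,1)`-total labeling of span `l`, that is, labels
`0, …, l` for the vertices (`fV`) and the edges (`fE`) such that adjacent vertices get different
labels, edges sharing an endpoint get different labels, and the labels of a vertex and of an
incident edge differ by at least `p`. -/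
def TotalLabeling {V : Type} (G : SimpleGraph V) (p l : ℕ) : Prop :=
  ∃ (fV : V → ℕ) (fE : Sym2 V → ℕ),
    (∀ v, fV v ≤ l) ∧ (∀ e ∈ G.edgeSet, fE e ≤ l) ∧
    (∀ u v, G.Adj u v → fV u ≠ fV v) ∧
    (∀ u v w, G.Adj u v → G.Adj u w → v ≠ w → fE s(u, v) ≠ fE s(u, w)) ∧
    (∀ u v, G.Adj u v → (p : ℤ) ≤ |(fV u : ℤ) - (fE s(u, v) : ℤ)|)

/-- `adjacentPairs G v`: the number of ordered pairs of adjacent neighbours of `v`, that is, twice the
number of triangles which contain `v`. -/
noncomputable def adjacentPairs {V : Type} (G : SimpleGraph V) (v : V) : ℕ :=
  {a : V × V | G.Adj v a.1 ∧ G.Adj v a.2 ∧ G.Adj a.1 a.2}.ncard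

theorem of_lb {V : Type} {G : SimpleGraph V} {p D : ℕ} (h : Lb G p (D + 2 * p)) :
    TotalLabeling G p (D + 2 * p - 1) := by
  obtain ⟨fV, fE, h1, h2, h3⟩ := h.toSym2
  exact ⟨fV, fE, fun v => Nat.le_sub_one_of_lt (h1 v), fun e he => Nat.le_sub_one_of_lt (h2 e he),
    h3⟩

theorem adjA_eq {V : Type} [Fintype V] (G : SimpleGraph V) (v : V) :
    (adjA G v).card = adjacentPairs G v := by
  classical
  rw [adjacentPairs, ← Set.ncard_coe_finset]
  congr 1
  ext a
  simp [adjA]

/-- **The Havet-Yu conjecture for `p ≥ (1/2 + ε) Δ` and graphs without edges between locally dense and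
other vertices.** For every `ε > 0` there is `δ₀ > 0` such that for every `0 < δ ≤ δ₀` there is `D₀` such
that every finite graph `G` with maximum degree `Δ ≥ D₀` has, for all `p ≥ (1/2 + ε) Δ`, a
`(p,1)`-total labeling of span `Δ + 2 p - 1` in each of these cases:
(1) of two adjacent vertices either both or none lie in at least `(1 - δ) Δ² / 2` triangles;
(2) all the edges lie in the same number of triangles. -/
theorem result (ε : ℝ) (hε : 0 < ε) : ∃ δ₀ : ℝ, 0 < δ₀ ∧ ∀ δ : ℝ, 0 < δ → δ ≤ δ₀ →
    ∃ D₀ : ℕ, ∀ (V : Type) [Fintype V] (G : SimpleGraph V) [DecidableRel G.Adj] (p : ℕ),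
    D₀ ≤ G.maxDegree → (1 / 2 + ε) * (G.maxDegree : ℝ) ≤ p →
    ((∀ u v, G.Adj u v → ((1 - δ) * (G.maxDegree : ℝ) ^ 2 ≤ adjacentPairs G u ↔
        (1 - δ) * (G.maxDegree : ℝ) ^ 2 ≤ adjacentPairs G v)) ∨
      (∃ t : ℕ, ∀ u v, G.Adj u v → (G.commonNeighbors u v).ncard = t)) →
    TotalLabeling G p (G.maxDegree + 2 * p - 1) := by
  classical
  obtain ⟨δ₀, hδ₀, h1⟩ := Pool.T9h45.LD.mixed
    (near gen Pool.Agent.T9h64.LD.e1 Pool.Agent.T9h14.LD.e2 Pool.Agent.T9h82.LD.e3
      Pool.Agent.T9h70.LD.t1 Pool.Agent.T9h56.LD.t2 Pool.Agent.T9h89.LD.t3
      (Pool.Agent.T9h43.LD.t4b Pool.Agent.T9h31.LD.t4a) Pool.Agent.T9h96.LD.b1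
      Pool.Agent.T9h63.LD.b2) Pool.Agent.T9h56.LD.st ε hε
  obtain ⟨D₂, h2⟩ := edge_const ε hε
  refine ⟨δ₀, hδ₀, fun δ hδ hδδ => ?_⟩
  obtain ⟨D₁, h1⟩ := h1 δ hδ hδδ
  refine ⟨max D₁ D₂, ?_⟩
  intro V _ G _ p hD hp hG
  have hD1 : D₁ ≤ G.maxDegree := le_trans (le_max_left _ _) hD
  have hD2 : D₂ ≤ G.maxDegree := le_trans (le_max_right _ _) hD
  have hdeg : ∀ v, cn (fun w => G.Adj v w) ≤ G.maxDegree := fun v => by
    rw [← deg_eq]
    exact G.degree_le_maxDegree v
  apply of_lb
  rcases hG with hG | ⟨t, ht⟩
  · refine h1 V G G.maxDegree p hD1 hdeg (fun u v huv => ?_) hp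
    rw [adjA_eq, adjA_eq]
    exact hG u v huv
  · refine h2 V G G.maxDegree p t hD2 hdeg (fun u v huv => ?_) hp
    rw [← ht u v huv, cn, ← Set.ncard_coe_finset]
    congr 1
    ext w
    simp [SimpleGraph.mem_commonNeighbors]

end Pool.Agent.Results.MP_b8729f_co.LocallyDense
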