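import Pool.Agent.T9h80.HY.Split
import Pool.Agent.T9h80.HY.Core

/-!
# The Havet-Yu conjecture for split graphs, and for graphs with a dense core

A graph is a split graph if its vertices can be partitioned into a clique and an independent set.
We show that every split graph of maximum degree `Δ` has, for every `p ≥ 1`, a circular
`(p,1)`-total labelling with `Δ + 2 p` labels, and so it satisfies the Havet-Yu conjecture. The
same holds if the vertices outside the clique `A` span a graph of maximum degree `r`, where `r ≤ 1`,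
or `|A| + 6 (r + 1) ^ 4 ≤ Δ + 1`, or `|A| + 2 (r + 1) ≤ Δ + 1` and at least `2 (r + 1)` vertices of
`A` have degree at most `Δ - 2 (r + 1)`; instead of being a clique, the set `A` may have the
property that every vertex of `A` has at most `Δ + 1 - |A|` neighbours outside `A`; and the same
holds for the Cartesian products of such a graph with bipartite graphs and complete graphs of even
order at most `2 Δ + 2`.

Proof. We construct integer labels `F` of the vertices and `E` of the edges such that the labels of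
the edges at a vertex `u` are in `F(u), …, F(u) + Δ` (an upward labelling). Number the vertices of
`A` by `0, …, k - 1` and let `F(i) = i`, `E(ij) = i + j` in `A`, so that the `k - 1` edges at `i`
inside `A` have labels between `i` and `i + k - 1`. The vertices outside `A` get labels
`F(x) = k + f(x)` with small `f(x) ≥ 0`, and the edges between `A` and the rest get labels `k + c`,
where the edges at `i` have to get times `c` in the window `i, …, i + t - 1`, `t = Δ + 1 - k`. The
windows are translates of each other and their right ends are different, and this makes it possible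
to satisfy Hall's condition: if every vertex `i` is served without a break from the time
`i + t - (number of its neighbours outside A)` on, the vertices which are served at some time have
different numbers of remaining neighbours (`sched`). For split graphs this is all. In general only
the times `c < 2 (r + 1)` are in conflict with the edges and the vertices outside `A`. They matter
only for few vertices `i` (those with `i < 2 (r + 1)` and almost `t` neighbours outside `A`; if
possible, the numbering avoids them), and for these we choose in advance neighbours which are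
pairwise at distance at least three outside `A`, give them `f = 0` and correct the labels of the
edges around them.
-/

set_option autoImplicit false

namespace Pool.Agent.Results.MP_b8729f_co.SplitGraphs

open Pool.Agent.T9h45.HY Pool.Agent.T9h80.HY

/-- `TotalLabeling G p l`: the graph `G` has a `(p,1)`-total labeling of span `l`, that is, labels
`0, …, l` for the vertices (`fV`) and the edges (`fE`) such that adjacent vertices get different
labels, edges sharing an endpoint get different labels, and the labels of a vertex and of an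
incident edge differ by at least `p`. -/
def TotalLabeling {V : Type} (G : SimpleGraph V) (p l : ℕ) : Prop :=
  ∃ (fV : V → ℕ) (fE : Sym2 V → ℕ),
    (∀ v, fV v ≤ l) ∧ (∀ e ∈ G.edgeSet, fE e ≤ l) ∧
    (∀ u v, G.Adj u v → fV u ≠ fV v) ∧
    (∀ u v w, G.Adj u v → G.Adj u w → v ≠ w → fE s(u, v) ≠ fE s(u, w)) ∧
    (∀ u v, G.Adj u v → (p : ℤ) ≤ |(fV u : ℤ) - (fE s(u, v) : ℤ)|)

/-- `CircularLabeling G p N`: a circular `(p,1)`-total labeling of `G` with the `N` labels
`0, …, N - 1` placed around a circle: as above, but the distance of the labels of a vertex and of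
an incident edge, measured around the circle, is at least `p`
(so `p ≤ |fV u - fE uv| ≤ N - p`). -/
def CircularLabeling {V : Type} (G : SimpleGraph V) (p N : ℕ) : Prop :=
  ∃ (fV : V → ℕ) (fE : Sym2 V → ℕ),
    (∀ v, fV v < N) ∧ (∀ e ∈ G.edgeSet, fE e < N) ∧
    (∀ u v, G.Adj u v → fV u ≠ fV v) ∧
    (∀ u v w, G.Adj u v → G.Adj u w → v ≠ w → fE s(u, v) ≠ fE s(u, w)) ∧
    (∀ u v, G.Adj u v → (p : ℤ) ≤ |(fV u : ℤ) - (fE s(u, v) : ℤ)| ∧
      |(fV u : ℤ) - (fE s(u, v) : ℤ)| ≤ (N : ℤ) - p)

/-- The Cartesian product of the graphs `H i`: two vertices are adjacent if they differ in exactly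
one coordinate `i`, in which they are adjacent in `H i`. -/
def BoxPi {k : ℕ} {W : Fin k → Type} (H : ∀ i, SimpleGraph (W i)) : SimpleGraph (∀ i, W i) where
  Adj x y := ∃ i, (H i).Adj (x i) (y i) ∧ ∀ j, j ≠ i → x j = y j
  symm := ⟨fun _ _ ⟨i, h, h'⟩ => ⟨i, h.symm, fun j hj => (h' j hj).symm⟩⟩
  loopless := ⟨fun _ ⟨i, h, _⟩ => (H i).loopless.irrefl _ h⟩

/-- The square of `G` can be coloured with `n` colours: different vertices at distance at most two
get different colours. -/
def SquareColorable {V : Type} (G : SimpleGraph V) (n : ℕ) : Prop :=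
  ∃ c : V → Fin n, (∀ u v, G.Adj u v → c u ≠ c v) ∧
    ∀ u v w, G.Adj u v → G.Adj u w → v ≠ w → c v ≠ c w

/-- `UpwardLabeling G D`: integer labels `F` of the vertices and `E` of the edges of `G` such that
adjacent vertices get different labels, edges sharing an endpoint get different labels, and the
labels of the edges at a vertex `u` are in the interval `F u, …, F u + D`. -/
def UpwardLabeling {V : Type} (G : SimpleGraph V) (D : ℕ) : Prop :=
  ∃ (F : V → ℤ) (E : Sym2 V → ℤ), (∀ u v, G.Adj u v → F u ≠ F v) ∧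
    (∀ u v w, G.Adj u v → G.Adj u w → v ≠ w → E s(u, v) ≠ E s(u, w)) ∧
    (∀ u v, G.Adj u v → F u ≤ E s(u, v) ∧ E s(u, v) ≤ F u + D)

/-- `Core G D r q A`: every vertex of `A` has at most `D + 1 - |A|` neighbours outside `A` (this is
so if `A` is a clique and all degrees are at most `D`), every vertex outside `A` has at most `r`
neighbours outside `A`, and `r ≤ 1`, or at least `2 (r + 1) - q` vertices of `A` have at most
`D + 1 - |A| - 2 (r + 1)` neighbours outside `A`, and
`|A| + 2 (r + 1) + q ^ 2 (r ^ 2 + r + 1) ≤ D + 1`. (With `q = 2 (r + 1)` this last condition is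
`|A| + 2 (r + 1) + 4 (r + 1) ^ 2 (r ^ 2 + r + 1) ≤ D + 1`, which follows from
`|A| + 6 (r + 1) ^ 4 ≤ D + 1`.) -/
def Core {V : Type} (G : SimpleGraph V) (D r q : ℕ) (A : Set V) : Prop :=
  (∀ a, a ∈ A → A.ncard + {x | x ∉ A ∧ G.Adj a x}.ncard ≤ D + 1) ∧
  (∀ x, x ∉ A → {y | y ∉ A ∧ G.Adj x y}.ncard ≤ r) ∧
  (r ≤ 1 ∨ (2 * (r + 1) ≤
      {a | a ∈ A ∧ A.ncard + {x | x ∉ A ∧ G.Adj a x}.ncard + 2 * (r + 1) ≤ D + 1}.ncard + q ∧
    A.ncard + 2 * (r + 1) + q ^ 2 * (r ^ 2 + r + 1) ≤ D + 1))

/-- `G` is a split graph: its vertices are partitioned into a clique and an independent set. -/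
def IsSplit {V : Type} (G : SimpleGraph V) : Prop :=
  ∃ A : Set V, (∀ x y, x ∈ A → y ∈ A → x ≠ y → G.Adj x y) ∧
    (∀ x y, x ∉ A → y ∉ A → ¬ G.Adj x y)

theorem circ_lin {V : Type} {G : SimpleGraph V} {p N : ℕ} (h : CircularLabeling G p N) :
    TotalLabeling G p (N - 1) := by
  obtain ⟨fV, fE, h1, h2, h3, h4, h5⟩ := h
  exact ⟨fV, fE, fun v => Nat.le_sub_one_of_lt (h1 v), fun e he => Nat.le_sub_one_of_lt (h2 e he),
    h3, h4, fun u v huv => (h5 u v huv).1⟩

theorem nbr {Y : Type} [Fintype Y] (Q : SimpleGraph Y) [DecidableRel Q.Adj] (y : Y) :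
    (Q.neighborSet y).ncard ≤ Q.maxDegree := by
  classical
  refine le_trans (le_of_eq ?_) (Q.degree_le_maxDegree y)
  rw [← SimpleGraph.card_neighborFinset_eq_degree, ← Set.ncard_coe_finset,
    SimpleGraph.coe_neighborFinset]

theorem up_iff {V : Type} (G : SimpleGraph V) (D : ℕ) : UpwardLabeling G D ↔ Up G D := by
  classical
  constructor
  · rintro ⟨F, E, h1, h2, h3⟩
    refine ⟨F, fun u v => E s(u, v), fun u v => congrArg E Sym2.eq_swap,
      fun u v h => ⟨h1 u v h, h3 u v h⟩, ?_⟩
    intro u v w hv hw h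
    by_contra hvw
    exact h2 u v w hv hw hvw h
  · rintro ⟨F, E, h1, h2, h3⟩
    refine ⟨F, Sym2.lift ⟨E, h1⟩, fun u v h => (h2 u v h).1, ?_, fun u v h => (h2 u v h).2⟩
    intro u v w hv hw hvw h
    exact hvw (h3 u v w hv hw h)

theorem empty_lab {V : Type} [IsEmpty V] (G : SimpleGraph V) (p N : ℕ) :
    CircularLabeling G p N := by
  refine ⟨fun _ => 0, fun _ => 0, fun v => isEmptyElim v, ?_, fun u => isEmptyElim u,
    fun u => isEmptyElim u, fun u => isEmptyElim u⟩
  intro e _
  induction e using Sym2.ind with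
  | _ u v => exact isEmptyElim u

theorem sum_le_maxDegree {k : ℕ} {W : Fin k → Type} [∀ i, Fintype (W i)] [∀ i, Nonempty (W i)]
    (H : ∀ i, SimpleGraph (W i)) [∀ i, DecidableRel (H i).Adj] [DecidableRel (BoxPi H).Adj] :
    ∑ i, (H i).maxDegree ≤ (BoxPi H).maxDegree := by
  classical
  have hx : ∀ i, ∃ v, (H i).maxDegree = (H i).degree v := fun i =>
    (H i).exists_maximal_degree_vertex
  choose x hx using hx
  refine le_trans ?_ ((BoxPi H).degree_le_maxDegree x)
  rw [Finset.sum_congr rfl fun i _ => hx i]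
  have h1 : ∑ i, (H i).degree (x i) = Fintype.card (Σ i, (H i).neighborSet (x i)) := by
    rw [Fintype.card_sigma]
    exact Finset.sum_congr rfl fun i _ => ((H i).card_neighborSet_eq_degree (x i)).symm
  rw [h1, ← SimpleGraph.card_neighborSet_eq_degree]
  refine Fintype.card_le_of_injective (fun q => (⟨Function.update x q.1 q.2.1, ?_⟩ :
    (BoxPi H).neighborSet x)) ?_
  · refine ⟨q.1, ?_, fun j hj => ?_⟩
    · rw [Function.update_self]
      exact q.2.2
    · rw [Function.update_of_ne hj]
  · rintro ⟨i, v, hv⟩ ⟨j, w, hw⟩ h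
    have h2 : Function.update x i v = Function.update x j w := congrArg Subtype.val h
    have h3 : i = j := by
      by_contra hij
      have h4 := congrFun h2 i
      rw [Function.update_self, Function.update_of_ne hij] at h4
      exact (H i).ne_of_adj hv h4.symm
    subst h3
    have h4 := congrFun h2 i
    rw [Function.update_self, Function.update_self] at h4
    subst h4
    rfl

/-- the general case of products -/
theorem general {k : ℕ} (W : Fin k → Type) [∀ i, Fintype (W i)] (H : ∀ i, SimpleGraph (W i))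
    [∀ i, DecidableRel (H i).Adj] [DecidableRel (BoxPi H).Adj] (i₀ : Fin k) (p : ℕ) (hp : 1 ≤ p)
    (hup : UpwardLabeling (H i₀) (H i₀).maxDegree)
    (h : ∀ i, i ≠ i₀ → (H i).Colorable 2 ∨ (Odd (H i).maxDegree ∧
      SquareColorable (H i) ((H i).maxDegree + 1) ∧
      (H i).maxDegree ≤ 2 * (H i₀).maxDegree + 1)) :
    CircularLabeling (BoxPi H) p ((BoxPi H).maxDegree + 2 * p) := by
  by_cases hne : ∀ i, Nonempty (W i)
  · have h1 := sum_le_maxDegree H
    have h2 := prod_core H (BoxPi H) (fun x y hxy => hxy) i₀ (fun i => (H i).maxDegree) p hp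
      ((up_iff _ _).1 hup) (by
        intro i hi
        rcases h i hi with h3 | ⟨h3, h4, h5⟩
        · exact two_bip _ h3 _ _ (nbr _)
        · exact two_sq _ _ _ h4 h3 h5)
    exact Pool.Agent.R661.HY.circ_mono h2 (by omega)
  · push Not at hne
    obtain ⟨i, hi⟩ := hne
    have : IsEmpty (W i) := not_nonempty_iff.1 (by simpa using hi)
    have : IsEmpty (∀ i, W i) := ⟨fun x => isEmptyElim (x i)⟩
    exact empty_lab _ _ _

/-- upward labelings give circular ones -/
theorem circ_of_up {V : Type} (G : SimpleGraph V) (D p : ℕ) (hp : 1 ≤ p)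
    (h : UpwardLabeling G D) : CircularLabeling G p (D + 2 * p) := by
  obtain ⟨F, E, h1, h2, h3⟩ := h
  obtain ⟨N, hN⟩ : ∃ N : ℕ, N = D + 2 * p := ⟨_, rfl⟩
  have hN0 : (0 : ℤ) < N := by omega
  have e1 : ∀ z : ℤ, ((z % N).toNat : ℤ) = z % N := fun z =>
    Int.toNat_of_nonneg (Int.emod_nonneg _ hN0.ne')
  have e2 : ∀ z : ℤ, (z % N).toNat < N := by
    intro z
    have h4 := Int.emod_lt_of_pos z hN0
    have h5 := e1 z
    omega
  have e3 : ∀ z w : ℤ, z % N = w % N → |z - w| < N → z = w := by
    intro z w hzw habs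
    have h4 : (N : ℤ) ∣ z - w := Int.ModEq.dvd hzw.symm
    have h5 := Int.eq_zero_of_abs_lt_dvd h4 habs
    omega
  rw [← hN]
  refine ⟨fun v => (F v % N).toNat, fun e => ((E e + p) % N).toNat, fun v => e2 _, fun e _ => e2 _,
    ?_, ?_, ?_⟩
  · intro u v huv h
    beta_reduce at h
    have h4 : F u % N = F v % N := by rw [← e1, h, e1]
    have h5 := h3 u v huv
    have h6 := h3 v u huv.symm
    rw [Sym2.eq_swap] at h6
    exact h1 u v huv (e3 _ _ h4 (by rw [abs_lt]; constructor <;> omega))
  · intro u v w huv huw hvw h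
    beta_reduce at h
    have h4 : (E s(u, v) + p) % N = (E s(u, w) + p) % N := by rw [← e1, h, e1]
    have h5 := h3 u v huv
    have h6 := h3 u w huw
    have h7 := e3 _ _ h4 (by rw [abs_lt]; constructor <;> omega)
    exact h2 u v w huv huw hvw (by omega)
  · intro u v huv
    rw [e1, e1]
    have h5 := h3 u v huv
    obtain ⟨d, hd⟩ : ∃ d : ℤ, E s(u, v) + p = F u + d := ⟨E s(u, v) + p - F u, by ring⟩
    have hd1 : (p : ℤ) ≤ d := by omega
    have hd2 : d ≤ N - p := by omega
    rw [hd, Int.add_emod]
    have h6 := Int.emod_nonneg (F u) hN0.ne'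
    have h7 := Int.emod_lt_of_pos (F u) hN0
    have h8 : d % N = d := Int.emod_eq_of_lt (by omega) (by omega)
    rw [h8]
    by_cases h9 : F u % N + d < N
    · rw [Int.emod_eq_of_lt (by omega) h9, abs_sub_comm, abs_of_nonneg (by omega)]
      constructor <;> omega
    · have h10 : (F u % N + d) % N = F u % N + d - N := by
        rw [← Int.sub_emod_right, Int.emod_eq_of_lt (by omega) (by omega)]
      rw [h10, abs_of_nonneg (by omega)]
      constructor <;> omega

theorem core_up {V : Type} [Fintype V] (G : SimpleGraph V) (D r q : ℕ) (A : Set V)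
    (hD : ∀ v, (G.neighborSet v).ncard ≤ D) (h : Core G D r q A) : UpwardLabeling G D := by
  classical
  rw [up_iff]
  obtain ⟨h1, h2, h3⟩ := h
  have e1 : A.ncard = A.toFinset.card := by
    rw [← Set.ncard_coe_finset, Set.coe_toFinset]
  have e2 : ∀ x, x ∈ A.toFinset ↔ x ∈ A := fun x => Set.mem_toFinset
  have hA : ∀ a ∈ A.toFinset, A.toFinset.card + {x | x ∉ A.toFinset ∧ G.Adj a x}.ncard ≤ D + 1 := by
    intro a ha
    have h4 := h1 a ((e2 a).1 ha)
    rw [← e1]
    simpa only [e2] using h4
  rcases h3 with h3 | h3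
  · refine up_split G A.toFinset D hA ?_ ?_
    · intro x y z hx hy hz hxy hxz
      rw [e2] at hx hy hz
      have h4 := (h2 x hx).trans h3
      exact (Set.ncard_le_one (Set.toFinite _)).1 h4 y ⟨hy, hxy⟩ z ⟨hz, hxz⟩
    · intro x y _ _ hxy
      refine le_trans ?_ (hD x)
      exact Nat.one_le_iff_ne_zero.2 (Set.ncard_ne_zero_of_mem hxy)
  · refine up_core G A.toFinset D r q hA ?_ ?_ (by rw [← e1]; exact h3.2)
    · intro x hx
      have h4 := h2 x (fun h => hx ((e2 x).2 h))
      simpa only [e2] using h4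
    · rw [← e1]
      simpa only [e2] using h3.1

/-- for a clique the first condition of `Core` is automatic -/
theorem clique_core {V : Type} [Fintype V] (G : SimpleGraph V) (A : Set V)
    (hA : ∀ x y, x ∈ A → y ∈ A → x ≠ y → G.Adj x y) (a : V) (ha : a ∈ A) :
    A.ncard + {x | x ∉ A ∧ G.Adj a x}.ncard ≤ (G.neighborSet a).ncard + 1 := by
  classical
  have h1 : A \ {a} ∪ {x | x ∉ A ∧ G.Adj a x} ⊆ G.neighborSet a := by
    rintro x (⟨hx, hxa⟩ | hx)
    · exact hA a x ha hx (fun h => hxa h.symm)
    · exact hx.2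
  have h2 := Set.ncard_le_ncard h1 (Set.toFinite _)
  rw [Set.ncard_union_eq (by
    rw [Set.disjoint_left]
    rintro x ⟨hx, -⟩ hx'
    exact hx'.1 hx) (Set.toFinite _) (Set.toFinite _)] at h2
  have h3 : (A \ {a}).ncard + 1 = A.ncard := Set.ncard_sdiff_singleton_add_one ha (Set.toFinite _)
  omega

/-- **The Havet-Yu conjecture for split graphs and for graphs with a dense core.** Let `p ≥ 1`.

(1) Every finite split graph `G` of maximum degree `Δ` has a circular `(p,1)`-total labelling with
`Δ + 2 p` labels and a `(p,1)`-total labelling of span `Δ + 2 p - 1`.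

(2) More generally, this holds if `G` has a clique `A` such that every vertex outside `A` has at most
`r` neighbours outside `A`, where `r ≤ 1`, or `|A| + 6 (r + 1) ^ 4 ≤ Δ + 1`, or
`|A| + 2 (r + 1) ≤ Δ + 1` and at least `2 (r + 1)` vertices of `A` have degree at most
`Δ - 2 (r + 1)`.

(3) Let all degrees of `G` be at most `D`, and let `A` be a set of vertices (not necessarily a
clique) such that every vertex of `A` has at most `D + 1 - |A|` neighbours outside `A` and every
vertex outside `A` has at most `r` neighbours outside `A`, where `r ≤ 1`, or, for some `q`, at least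
`2 (r + 1) - q` vertices of `A` have at most `D + 1 - |A| - 2 (r + 1)` neighbours outside `A` and
`|A| + 2 (r + 1) + q ^ 2 (r ^ 2 + r + 1) ≤ D + 1`. Then `G` has an upward labelling with `D`, a
circular `(p,1)`-total labelling with `D + 2 p` labels and a `(p,1)`-total labelling of span
`D + 2 p - 1`.

(4) Let `H_1, …, H_k` be finite graphs such that `H_{i₀}`, of maximum degree `D`, is as in (3)
(for instance a split graph), and every other `H_i` is bipartite or has an odd maximum degree
`Δ(H_i) ≤ 2 D + 1` and a square that can be coloured with `Δ(H_i) + 1` colours (for instance, a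
complete graph with an even number of vertices, at most `2 D + 2`). Then the Cartesian product of
`H_1, …, H_k`, of maximum degree `Δ`, has a circular `(p,1)`-total labelling with `Δ + 2 p` labels
and a `(p,1)`-total labelling of span `Δ + 2 p - 1`. -/
theorem result (p : ℕ) (hp : 1 ≤ p) :
    (∀ (V : Type) [Fintype V] (G : SimpleGraph V) [DecidableRel G.Adj], IsSplit G →
      CircularLabeling G p (G.maxDegree + 2 * p) ∧ TotalLabeling G p (G.maxDegree + 2 * p - 1)) ∧
    (∀ (V : Type) [Fintype V] (G : SimpleGraph V) [DecidableRel G.Adj] (A : Set V) (r : ℕ),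
      (∀ x y, x ∈ A → y ∈ A → x ≠ y → G.Adj x y) →
      (∀ x, x ∉ A → {y | y ∉ A ∧ G.Adj x y}.ncard ≤ r) →
      (r ≤ 1 ∨ A.ncard + 6 * (r + 1) ^ 4 ≤ G.maxDegree + 1 ∨
        (A.ncard + 2 * (r + 1) ≤ G.maxDegree + 1 ∧
          2 * (r + 1) ≤ {a | a ∈ A ∧ G.degree a + 2 * (r + 1) ≤ G.maxDegree}.ncard)) →
      CircularLabeling G p (G.maxDegree + 2 * p) ∧ TotalLabeling G p (G.maxDegree + 2 * p - 1)) ∧
    (∀ (V : Type) [Fintype V] (G : SimpleGraph V) (D r q : ℕ) (A : Set V),
      (∀ v, (G.neighborSet v).ncard ≤ D) → Core G D r q A →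
      UpwardLabeling G D ∧ CircularLabeling G p (D + 2 * p) ∧
        TotalLabeling G p (D + 2 * p - 1)) ∧
    (∀ (k : ℕ) (W : Fin k → Type) [∀ i, Fintype (W i)] (H : ∀ i, SimpleGraph (W i))
      [∀ i, DecidableRel (H i).Adj] [DecidableRel (BoxPi H).Adj] (i₀ : Fin k),
      (∃ (r q : ℕ) (A : Set (W i₀)), Core (H i₀) (H i₀).maxDegree r q A) →
      (∀ i, i ≠ i₀ → (H i).Colorable 2 ∨ (Odd (H i).maxDegree ∧
        SquareColorable (H i) ((H i).maxDegree + 1) ∧
        (H i).maxDegree ≤ 2 * (H i₀).maxDegree + 1)) →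
      CircularLabeling (BoxPi H) p ((BoxPi H).maxDegree + 2 * p) ∧
        TotalLabeling (BoxPi H) p ((BoxPi H).maxDegree + 2 * p - 1)) := by
  have h2 : ∀ (V : Type) [Fintype V] (G : SimpleGraph V) [DecidableRel G.Adj] (A : Set V) (r : ℕ),
      (∀ x y, x ∈ A → y ∈ A → x ≠ y → G.Adj x y) →
      (∀ x, x ∉ A → {y | y ∉ A ∧ G.Adj x y}.ncard ≤ r) →
      (r ≤ 1 ∨ A.ncard + 6 * (r + 1) ^ 4 ≤ G.maxDegree + 1 ∨
        (A.ncard + 2 * (r + 1) ≤ G.maxDegree + 1 ∧
          2 * (r + 1) ≤ {a | a ∈ A ∧ G.degree a + 2 * (r + 1) ≤ G.maxDegree}.ncard)) →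
      CircularLabeling G p (G.maxDegree + 2 * p) ∧ TotalLabeling G p (G.maxDegree + 2 * p - 1) := by
    intro V _ G _ A r hA hr h
    have hA' : ∀ a, a ∈ A → A.ncard + {x | x ∉ A ∧ G.Adj a x}.ncard ≤ G.maxDegree + 1 := by
      intro a ha
      have h3 := clique_core G A hA a ha
      have h4 := nbr G a
      omega
    have hcore : ∃ q, Core G G.maxDegree r q A := by
      rcases h with h | h | h
      · exact ⟨0, hA', hr, Or.inl h⟩
      · refine ⟨2 * (r + 1), hA', hr, Or.inr ⟨by omega, ?_⟩⟩
        refine le_trans ?_ h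
        have h5 : 2 * (r + 1) + (2 * (r + 1)) ^ 2 * (r ^ 2 + r + 1) ≤ 6 * (r + 1) ^ 4 := by
          nlinarith [Nat.zero_le r, Nat.zero_le (r ^ 2), Nat.zero_le (r ^ 3), Nat.zero_le (r ^ 4)]
        omega
      · refine ⟨0, hA', hr, Or.inr ⟨?_, by omega⟩⟩
        refine h.2.trans ?_
        rw [Nat.add_zero]
        refine Set.ncard_le_ncard ?_ (Set.toFinite _)
        rintro a ⟨ha, hdeg⟩
        refine ⟨ha, ?_⟩
        have h3 := clique_core G A hA a ha
        have h4 : (G.neighborSet a).ncard = G.degree a := by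
          rw [← SimpleGraph.card_neighborFinset_eq_degree, ← Set.ncard_coe_finset,
            SimpleGraph.coe_neighborFinset]
        omega
    obtain ⟨q, hq⟩ := hcore
    have h1 := circ_of_up G _ p hp (core_up G G.maxDegree r q A (nbr G) hq)
    exact ⟨h1, circ_lin h1⟩
  refine ⟨?_, h2, ?_, ?_⟩
  · intro V _ G _ hG
    obtain ⟨A, hA1, hA2⟩ := hG
    refine h2 V G A 0 hA1 ?_ (Or.inl (Nat.zero_le _))
    intro x hx
    have h3 : {y | y ∉ A ∧ G.Adj x y} = ∅ := by
      ext y
      simp only [Set.mem_ofPred_eq, Set.mem_empty_iff_false, iff_false, not_and]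
      exact fun hy => hA2 x y hx hy
    rw [h3, Set.ncard_empty]
  · intro V _ G D r q A hD h
    have h3 := core_up G D r q A hD h
    have h1 := circ_of_up G _ p hp h3
    exact ⟨h3, h1, circ_lin h1⟩
  · intro k W _ H _ _ i₀ hcore h
    obtain ⟨r, q, A, hA⟩ := hcore
    have h3 := general W H i₀ p hp (core_up _ _ r q A (nbr _) hA) h
    exact ⟨h3, circ_lin h3⟩

end Pool.Agent.Results.MP_b8729f_co.SplitGraphs
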